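import Pool.Agent.helper93.FR.Spec
import Mathlib.Analysis.Matrix.Spectrum

/-!
# Row fr:Dec
-/

set_option autoImplicit false

namespace Pool.Agent.helper93.FR

open Matrix BigOperators

/-- the columns of `U` selected by `g` -/
def Dec_cols {n m : ℕ} (U : Matrix (Fin n) (Fin n) ℂ) (g : Fin m → Fin n) :
    Matrix (Fin n) (Fin m) ℂ := U.submatrix id g

theorem Dec_orth {n m m' : ℕ} {U : Matrix (Fin n) (Fin n) ℂ} (hU : Uᴴ * U = 1)
    (g : Fin m → Fin n) (g' : Fin m' → Fin n) (x : Fin m) (x' : Fin m') :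
    ((Dec_cols U g)ᴴ * Dec_cols U g') x x' = if g x = g' x' then 1 else 0 := by
  have h := congrFun (congrFun hU (g x)) (g' x')
  rw [Matrix.one_apply] at h
  rw [← h, Matrix.mul_apply, Matrix.mul_apply]
  rfl

theorem Dec_orth_one {n m : ℕ} {U : Matrix (Fin n) (Fin n) ℂ} (hU : Uᴴ * U = 1)
    (g : Fin m → Fin n) (hg : Function.Injective g) : (Dec_cols U g)ᴴ * Dec_cols U g = 1 := by
  ext x x'
  rw [Dec_orth hU, Matrix.one_apply]
  by_cases h : x = x'
  · rw [if_pos h, if_pos (by rw [h])]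
  · rw [if_neg h, if_neg fun h' => h (hg h')]

theorem Dec_orth_zero {n m m' : ℕ} {U : Matrix (Fin n) (Fin n) ℂ} (hU : Uᴴ * U = 1)
    (g : Fin m → Fin n) (g' : Fin m' → Fin n) (hg : ∀ x x', g x ≠ g' x') :
    (Dec_cols U g)ᴴ * Dec_cols U g' = 0 := by
  ext x x'
  rw [Dec_orth hU, if_neg (hg x x'), Matrix.zero_apply]

/-- sum over a subset given by an enumeration -/
theorem Dec_sum {n m : ℕ} (p : Fin n → Prop) [DecidablePred p] (f : Fin m ≃ {i // p i})
    (F : Fin n → ℂ) : ∑ x, F (f x) = ∑ i : {i // p i}, F i :=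
  Equiv.sum_comp f fun i : {i // p i} => F i

theorem Dec_complete {n m m' : ℕ} {U : Matrix (Fin n) (Fin n) ℂ} (hU : U * Uᴴ = 1)
    (p : Fin n → Prop) [DecidablePred p] (f : Fin m ≃ {i // p i}) (f' : Fin m' ≃ {i // ¬ p i}) :
    Dec_cols U (fun x => (f x : Fin n)) * (Dec_cols U fun x => (f x : Fin n))ᴴ +
      Dec_cols U (fun x => (f' x : Fin n)) * (Dec_cols U fun x => (f' x : Fin n))ᴴ = 1 := by
  ext a b
  have h := congrFun (congrFun hU a) b
  rw [← h, Matrix.add_apply, Matrix.mul_apply, Matrix.mul_apply, Matrix.mul_apply,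
    ← Fintype.sum_subtype_add_sum_subtype p fun i => U a i * Uᴴ i b,
    ← Dec_sum p f fun i => U a i * Uᴴ i b, ← Dec_sum (fun i => ¬ p i) f' fun i => U a i * Uᴴ i b]
  rfl

theorem Dec_inter {n m : ℕ} {U : Matrix (Fin n) (Fin n) ℂ} (hU : U * Uᴴ = 1)
    (p : Fin n → Prop) [DecidablePred p] (f : Fin m ≃ {i // p i})
    (y : Matrix (Fin n) (Fin n) ℂ) (hM : ∀ i i', ¬ p i → p i' → (Uᴴ * y * U) i i' = 0) :
    Dec_cols U (fun x => (f x : Fin n)) *
      ((Dec_cols U fun x => (f x : Fin n))ᴴ * y * Dec_cols U fun x => (f x : Fin n)) =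
      y * Dec_cols U fun x => (f x : Fin n) := by
  have h1 : (Dec_cols U fun x => (f x : Fin n))ᴴ * y * (Dec_cols U fun x => (f x : Fin n)) =
      (Uᴴ * y * U).submatrix (fun x => (f x : Fin n)) (fun x => (f x : Fin n)) := by
    ext x x'
    simp only [Dec_cols, Matrix.mul_apply, Matrix.submatrix_apply, Matrix.conjTranspose_apply, id]
  have h2 : y * U = U * (Uᴴ * y * U) := by
    rw [← Matrix.mul_assoc, ← Matrix.mul_assoc, hU, Matrix.one_mul]
  rw [h1]
  ext a x
  have h3 : (y * Dec_cols U fun x => (f x : Fin n)) a x = (y * U) a (f x) := by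
    simp only [Dec_cols, Matrix.mul_apply, Matrix.submatrix_apply, id]
  rw [h3, h2, Matrix.mul_apply, Matrix.mul_apply,
    ← Fintype.sum_subtype_add_sum_subtype p fun i => U a i * (Uᴴ * y * U) i (f x),
    ← Dec_sum p f fun i => U a i * (Uᴴ * y * U) i (f x)]
  have h4 : ∑ i : {i // ¬ p i}, U a i * (Uᴴ * y * U) i (f x) = 0 :=
    Finset.sum_eq_zero fun i _ => by rw [hM i (f x) i.2 (f x).2, mul_zero]
  rw [h4, add_zero]
  rfl

/-- splitting -/
theorem Dec_split {κ : Type} {n : ℕ} (y : κ → Matrix (Fin n) (Fin n) ℂ)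
    (c : Matrix (Fin n) (Fin n) ℂ) (hc : c.IsHermitian) (hy : SInt y y c)
    (hns : ∀ z : ℂ, c ≠ z • (1 : Matrix (Fin n) (Fin n) ℂ)) (hn : 0 < n) :
    ∃ (m m' : ℕ) (J : Matrix (Fin n) (Fin m) ℂ) (J' : Matrix (Fin n) (Fin m') ℂ)
      (z : κ → Matrix (Fin m) (Fin m) ℂ) (z' : κ → Matrix (Fin m') (Fin m') ℂ),
      m < n ∧ m' < n ∧ m + m' = n ∧ Jᴴ * J = 1 ∧ J'ᴴ * J' = 1 ∧ Jᴴ * J' = 0 ∧
      J * Jᴴ + J' * J'ᴴ = 1 ∧ SInt z y J ∧ SInt z' y J' := by
  classical
  obtain ⟨U, D, hU1, hU2, hcU, hD⟩ : ∃ (U : Matrix (Fin n) (Fin n) ℂ) (D : Fin n → ℂ),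
      Uᴴ * U = 1 ∧ U * Uᴴ = 1 ∧ c = U * diagonal D * Uᴴ ∧ True := by
    refine ⟨(hc.eigenvectorUnitary : Matrix (Fin n) (Fin n) ℂ), RCLike.ofReal ∘ hc.eigenvalues,
      ?_, ?_, ?_, trivial⟩
    · exact Unitary.coe_star_mul_self hc.eigenvectorUnitary
    · exact Unitary.coe_mul_star_self hc.eigenvectorUnitary
    · have := hc.spectral_theorem
      rw [Unitary.conjStarAlgAut_apply] at this
      exact this
  let p : Fin n → Prop := fun i => D i = D ⟨0, hn⟩
  have hcom : ∀ w : Matrix (Fin n) (Fin n) ℂ, c * w = w * c → ∀ i i', D i ≠ D i' →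
      (Uᴴ * w * U) i i' = 0 := by
    intro w hw i i' hne
    have h1 : diagonal D * (Uᴴ * w * U) = (Uᴴ * w * U) * diagonal D := by
      have h2 : Uᴴ * (c * w) * U = Uᴴ * (w * c) * U := by rw [hw]
      rw [hcU] at h2
      have h3 : Uᴴ * (U * diagonal D * Uᴴ * w) * U = (Uᴴ * U) * diagonal D * (Uᴴ * w * U) := by
        simp only [Matrix.mul_assoc]
      have h4 : Uᴴ * (w * (U * diagonal D * Uᴴ)) * U = (Uᴴ * w * U) * diagonal D * (Uᴴ * U) := by
        simp only [Matrix.mul_assoc]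
      rw [h3, h4, hU1, Matrix.one_mul, Matrix.mul_one] at h2
      exact h2
    have h5 := congrFun (congrFun h1 i) i'
    rw [Matrix.diagonal_mul, Matrix.mul_diagonal] at h5
    have h6 : (D i - D i') * (Uᴴ * w * U) i i' = 0 := by
      rw [sub_mul, h5]
      ring
    exact (mul_eq_zero.1 h6).resolve_left (sub_ne_zero.2 hne)
  have hex : ∃ i, ¬ p i := by
    by_contra hall
    push Not at hall
    apply hns (D ⟨0, hn⟩)
    have h1 : diagonal D = D ⟨0, hn⟩ • (1 : Matrix (Fin n) (Fin n) ℂ) := by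
      ext a b
      rw [Matrix.diagonal_apply, Matrix.smul_apply, Matrix.one_apply]
      by_cases h : a = b
      · rw [if_pos h, if_pos h, smul_eq_mul, mul_one]
        exact hall a
      · rw [if_neg h, if_neg h, smul_zero]
    rw [hcU, h1, Matrix.mul_smul, Matrix.mul_one, Matrix.smul_mul, hU2]
  let f := (Fintype.equivFin {i // p i}).symm
  let f' := (Fintype.equivFin {i // ¬ p i}).symm
  have hsum : Fintype.card {i // p i} + Fintype.card {i // ¬ p i} = n := by
    have := Fintype.card_subtype_compl p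
    have h2 := Fintype.card_subtype_le p
    rw [Fintype.card_fin] at this h2
    omega
  have hpos : 0 < Fintype.card {i // p i} := Fintype.card_pos_iff.2 ⟨⟨⟨0, hn⟩, rfl⟩⟩
  have hpos' : 0 < Fintype.card {i // ¬ p i} := by
    obtain ⟨i, hi⟩ := hex
    exact Fintype.card_pos_iff.2 ⟨⟨i, hi⟩⟩
  have hadj : ∀ w : Matrix (Fin n) (Fin n) ℂ, c * w = w * c → ∀ i i',
      ¬ p i → p i' → (Uᴴ * w * U) i i' = 0 := fun w hw i i' h h' =>
    hcom w hw i i' fun he => h (he.trans h')
  have hadj' : ∀ w : Matrix (Fin n) (Fin n) ℂ, c * w = w * c → ∀ i i',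
      ¬ ¬ p i → ¬ p i' → (Uᴴ * w * U) i i' = 0 := fun w hw i i' h h' =>
    hcom w hw i i' fun he => h' (he.symm.trans (not_not.1 h))
  refine ⟨_, _, Dec_cols U (fun x => (f x : Fin n)), Dec_cols U (fun x => (f' x : Fin n)),
    fun j => (Dec_cols U fun x => (f x : Fin n))ᴴ * y j * Dec_cols U fun x => (f x : Fin n),
    fun j => (Dec_cols U fun x => (f' x : Fin n))ᴴ * y j * Dec_cols U fun x => (f' x : Fin n),
    by omega, by omega, hsum, ?_, ?_, ?_, ?_, ?_, ?_⟩
  · exact Dec_orth_one hU1 _ fun x x' h => f.injective (Subtype.ext h)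
  · exact Dec_orth_one hU1 _ fun x x' h => f'.injective (Subtype.ext h)
  · exact Dec_orth_zero hU1 _ _ fun x x' h => (f' x').2 (h ▸ (f x).2)
  · exact Dec_complete hU2 p f f'
  · intro j
    refine ⟨Dec_inter hU2 p f (y j) (hadj _ (hy j).1), ?_⟩
    have := Dec_inter hU2 p f (y j)ᴴ (hadj _ (hy j).2)
    rw [← this]
    simp only [Matrix.conjTranspose_mul, Matrix.conjTranspose_conjTranspose, Matrix.mul_assoc]
  · intro j
    refine ⟨Dec_inter hU2 (fun i => ¬ p i) f' (y j) (hadj' _ (hy j).1), ?_⟩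
    have := Dec_inter hU2 (fun i => ¬ p i) f' (y j)ᴴ (hadj' _ (hy j).2)
    rw [← this]
    simp only [Matrix.conjTranspose_mul, Matrix.conjTranspose_conjTranspose, Matrix.mul_assoc]

/-- a hermitian non scalar star intertwiner -/
theorem Dec_herm {κ : Type} {n : ℕ} (y : κ → Matrix (Fin n) (Fin n) ℂ)
    (c : Matrix (Fin n) (Fin n) ℂ) (hy : SInt y y c)
    (hns : ∀ z : ℂ, c ≠ z • (1 : Matrix (Fin n) (Fin n) ℂ)) :
    ∃ c' : Matrix (Fin n) (Fin n) ℂ, c'.IsHermitian ∧ SInt y y c' ∧
      ∀ z : ℂ, c' ≠ z • (1 : Matrix (Fin n) (Fin n) ℂ) := by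
  have hadj : SInt y y cᴴ := by
    intro j
    constructor
    · have := congrArg Matrix.conjTranspose (hy j).2
      rw [Matrix.conjTranspose_mul, Matrix.conjTranspose_mul, Matrix.conjTranspose_conjTranspose] at this
      exact this.symm
    · have := congrArg Matrix.conjTranspose (hy j).1
      rw [Matrix.conjTranspose_mul, Matrix.conjTranspose_mul] at this
      exact this.symm
  by_cases h1 : ∃ z : ℂ, c + cᴴ = z • (1 : Matrix (Fin n) (Fin n) ℂ)
  · refine ⟨Complex.I • (c - cᴴ), ?_, ?_, ?_⟩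
    · rw [Matrix.IsHermitian, Matrix.conjTranspose_smul, Matrix.conjTranspose_sub,
        Matrix.conjTranspose_conjTranspose]
      rw [show star Complex.I = -Complex.I from Complex.conj_I, neg_smul, ← smul_neg, neg_sub]
    · intro j
      constructor
      · rw [Matrix.smul_mul, Matrix.mul_smul, Matrix.sub_mul, Matrix.mul_sub, (hy j).1, (hadj j).1]
      · rw [Matrix.smul_mul, Matrix.mul_smul, Matrix.sub_mul, Matrix.mul_sub, (hy j).2, (hadj j).2]
    · intro z hz
      obtain ⟨z1, hz1⟩ := h1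
      apply hns (2⁻¹ * (z1 - Complex.I * z))
      have h2 : c - cᴴ = (-Complex.I * z) • (1 : Matrix (Fin n) (Fin n) ℂ) := by
        rw [mul_smul, ← hz, smul_smul, neg_mul, Complex.I_mul_I, neg_neg, one_smul]
      have h3 : (2 : ℂ) • c = (z1 - Complex.I * z) • (1 : Matrix (Fin n) (Fin n) ℂ) := by
        have h4 : (2 : ℂ) • c = (c + cᴴ) + (c - cᴴ) := by
          rw [two_smul]
          abel
        rw [h4, hz1, h2, ← add_smul]
        congr 1
        ring
      rw [mul_smul, ← h3, smul_smul, inv_mul_cancel₀ two_ne_zero, one_smul]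
  · refine ⟨c + cᴴ, ?_, ?_, fun z hz => h1 ⟨z, hz⟩⟩
    · rw [Matrix.IsHermitian, Matrix.conjTranspose_add, Matrix.conjTranspose_conjTranspose, add_comm]
    · intro j
      constructor
      · rw [Matrix.add_mul, Matrix.mul_add, (hy j).1, (hadj j).1]
      · rw [Matrix.add_mul, Matrix.mul_add, (hy j).2, (hadj j).2]

/-- decomposition over an arbitrary finite index type -/
def Dec_P {κ : Type} {n : ℕ} (y : κ → Matrix (Fin n) (Fin n) ℂ) (ι : Type) [Fintype ι]
    (d : ι → ℕ) (J : ∀ k, Matrix (Fin n) (Fin (d k)) ℂ)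
    (z : ∀ k, κ → Matrix (Fin (d k)) (Fin (d k)) ℂ) : Prop :=
  (∀ k, (J k)ᴴ * J k = 1) ∧ (∀ k l, k ≠ l → (J k)ᴴ * J l = 0) ∧
    (∑ k, J k * (J k)ᴴ = 1) ∧ (∀ k, Irr (z k)) ∧ (∀ k, SInt (z k) y (J k)) ∧
    (∑ k, d k = n) ∧ Fintype.card ι ≤ n

theorem Dec_gen {κ : Type} : ∀ (n : ℕ) (y : κ → Matrix (Fin n) (Fin n) ℂ),
    ∃ (ι : Type) (_ : Fintype ι) (d : ι → ℕ) (J : ∀ k, Matrix (Fin n) (Fin (d k)) ℂ)
      (z : ∀ k, κ → Matrix (Fin (d k)) (Fin (d k)) ℂ), Dec_P y ι d J z := by
  intro n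
  induction n using Nat.strong_induction_on with
  | _ n ih =>
    intro y
    rcases Nat.eq_zero_or_pos n with h0 | hn
    · subst h0
      refine ⟨Empty, inferInstance, fun _ => 0, fun _ => 0, fun _ _ => 0, ?_, ?_, ?_, ?_, ?_, ?_, ?_⟩
      · exact fun k => k.elim
      · exact fun k => k.elim
      · exact Subsingleton.elim _ _
      · exact fun k => k.elim
      · exact fun k => k.elim
      · rfl
      · simp
    · by_cases hirr : Irr y
      · refine ⟨Unit, inferInstance, fun _ => n, fun _ => 1, fun _ => y, ?_, ?_, ?_, ?_, ?_, ?_, ?_⟩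
        · intro k
          rw [Matrix.conjTranspose_one, Matrix.one_mul]
        · exact fun k l h => absurd (Subsingleton.elim k l) h
        · rw [Fintype.sum_unique, Matrix.conjTranspose_one, Matrix.one_mul]
        · exact fun _ => hirr
        · intro _ j
          simp only [Matrix.one_mul, Matrix.mul_one, and_self]
        · rw [Fintype.sum_unique]
        · rw [Fintype.card_unit]
          exact hn
      · have hc : ∃ c : Matrix (Fin n) (Fin n) ℂ, SInt y y c ∧
            ∀ z : ℂ, c ≠ z • (1 : Matrix (Fin n) (Fin n) ℂ) := by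
          by_contra hcon
          apply hirr
          refine ⟨⟨⟨0, hn⟩⟩, fun c hc => ?_⟩
          by_contra hz
          exact hcon ⟨c, hc, fun z h => hz ⟨z, h⟩⟩
        obtain ⟨c, hc1, hc2⟩ := hc
        obtain ⟨c', hh, hs, hns⟩ := Dec_herm y c hc1 hc2
        obtain ⟨m, m', J, J', z, z', hm, hm', hmm, hJ, hJ', hJJ', hcompl, hS, hS'⟩ :=
          Dec_split y c' hh hs hns hn
        obtain ⟨ι, iι, d, K, w, a1, a2, a3, a4, a5, a6, a7⟩ := ih m hm z
        obtain ⟨ι', iι', d', K', w', b1, b2, b3, b4, b5, b6, b7⟩ := ih m' hm' z'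
        have hJ'J : J'ᴴ * J = 0 := by
          have := congrArg Matrix.conjTranspose hJJ'
          rw [Matrix.conjTranspose_mul, Matrix.conjTranspose_conjTranspose,
            Matrix.conjTranspose_zero] at this
          exact this
        refine ⟨ι ⊕ ι', inferInstance, fun k => match k with
            | Sum.inl a => d a
            | Sum.inr b => d' b, fun k => match k with
            | Sum.inl a => J * K a
            | Sum.inr b => J' * K' b, fun k => match k with
            | Sum.inl a => w a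
            | Sum.inr b => w' b, ?_, ?_, ?_, ?_, ?_, ?_, ?_⟩
        · rintro (a | b)
          · change (J * K a)ᴴ * (J * K a) = 1
            rw [Matrix.conjTranspose_mul, Matrix.mul_assoc, ← Matrix.mul_assoc Jᴴ, hJ,
              Matrix.one_mul, a1]
          · change (J' * K' b)ᴴ * (J' * K' b) = 1
            rw [Matrix.conjTranspose_mul, Matrix.mul_assoc, ← Matrix.mul_assoc J'ᴴ, hJ',
              Matrix.one_mul, b1]
        · rintro (a | b) (a' | b') hne
          · change (J * K a)ᴴ * (J * K a') = 0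
            rw [Matrix.conjTranspose_mul, Matrix.mul_assoc, ← Matrix.mul_assoc Jᴴ, hJ,
              Matrix.one_mul, a2 a a' fun h => hne (by rw [h])]
          · change (J * K a)ᴴ * (J' * K' b') = 0
            rw [Matrix.conjTranspose_mul, Matrix.mul_assoc, ← Matrix.mul_assoc Jᴴ, hJJ',
              Matrix.zero_mul, Matrix.mul_zero]
          · change (J' * K' b)ᴴ * (J * K a') = 0
            rw [Matrix.conjTranspose_mul, Matrix.mul_assoc, ← Matrix.mul_assoc J'ᴴ, hJ'J,
              Matrix.zero_mul, Matrix.mul_zero]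
          · change (J' * K' b)ᴴ * (J' * K' b') = 0
            rw [Matrix.conjTranspose_mul, Matrix.mul_assoc, ← Matrix.mul_assoc J'ᴴ, hJ',
              Matrix.one_mul, b2 b b' fun h => hne (by rw [h])]
        · rw [Fintype.sum_sum_type]
          change ∑ a, (J * K a) * (J * K a)ᴴ + ∑ b, (J' * K' b) * (J' * K' b)ᴴ = 1
          have e1 : ∑ a, (J * K a) * (J * K a)ᴴ = J * (∑ a, K a * (K a)ᴴ) * Jᴴ := by
            rw [Matrix.mul_sum, Matrix.sum_mul]
            refine Finset.sum_congr rfl fun a _ => ?_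
            simp only [Matrix.conjTranspose_mul, Matrix.mul_assoc]
          have e2 : ∑ b, (J' * K' b) * (J' * K' b)ᴴ = J' * (∑ b, K' b * (K' b)ᴴ) * J'ᴴ := by
            rw [Matrix.mul_sum, Matrix.sum_mul]
            refine Finset.sum_congr rfl fun a _ => ?_
            simp only [Matrix.conjTranspose_mul, Matrix.mul_assoc]
          rw [e1, e2, a3, b3, Matrix.mul_one, Matrix.mul_one, hcompl]
        · rintro (a | b)
          · exact a4 a
          · exact b4 b
        · rintro (a | b) j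
          · change (J * K a) * w a j = y j * (J * K a) ∧ (J * K a) * (w a j)ᴴ = (y j)ᴴ * (J * K a)
            constructor
            · rw [Matrix.mul_assoc, (a5 a j).1, ← Matrix.mul_assoc, (hS j).1, Matrix.mul_assoc]
            · rw [Matrix.mul_assoc, (a5 a j).2, ← Matrix.mul_assoc, (hS j).2, Matrix.mul_assoc]
          · change (J' * K' b) * w' b j = y j * (J' * K' b) ∧
              (J' * K' b) * (w' b j)ᴴ = (y j)ᴴ * (J' * K' b)
            constructor
            · rw [Matrix.mul_assoc, (b5 b j).1, ← Matrix.mul_assoc, (hS' j).1, Matrix.mul_assoc]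
            · rw [Matrix.mul_assoc, (b5 b j).2, ← Matrix.mul_assoc, (hS' j).2, Matrix.mul_assoc]
        · rw [Fintype.sum_sum_type]
          change ∑ a, d a + ∑ b, d' b = n
          rw [a6, b6, hmm]
        · rw [Fintype.card_sum]
          omega

theorem Dec : Dec_stmt := by
  intro κ n y
  obtain ⟨ι, iι, d, J, z, h1, h2, h3, h4, h5, h6, h7⟩ := Dec_gen n y
  let e := Fintype.equivFin ι
  refine ⟨Fintype.card ι, fun k => d (e.symm k), fun k => J (e.symm k), fun k => z (e.symm k),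
    fun k => h1 _, fun k l hkl => h2 _ _ fun h => hkl (e.symm.injective h), ?_, fun k => h4 _,
    fun k => h5 _, ?_, h7⟩
  · rw [Equiv.sum_comp e.symm fun k => J k * (J k)ᴴ]
    exact h3
  · rw [Equiv.sum_comp e.symm d]
    exact h6

end Pool.Agent.helper93.FR
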